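import Pool.Agent.H49.CL.Targets

/-!
Row ISC of the board cl_modules: from outside finitely many classes to everything.
-/

set_option autoImplicit false
set_option linter.unusedVariables false

namespace Pool.Agent.H34.CL

open Pool.Agent.H68.BP Pool.Agent.H58.SF Pool.Agent.H53.NR
open Pool.Agent.H57.AR (tp ty Ty)
open Pool.Agent.H57.EQ (Cx)
open Pool.Agent.H44.KR (HB Tyi TpOn)
open Pool.Agent.H44.FB (CptC EmbC)
open Pool.Agent.H72.CH Pool.Agent.H49.CL
open Function

theorem exu_mono {V : Type} {ρ : Sig} {𝔹 : Str ρ V} {lv : V → V → ℕ} {i : ℕ}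
    {R : Set (Ty ρ (Fin 2))} {g : V → V} {U U' : Set V} (h : ExU 𝔹 lv i R g U) (hU : U' ⊆ U) :
    ExU 𝔹 lv i R g U' :=
  fun x hx y hy hR => h x (hU hx) y (hU hy) hR

theorem pf_ISC : T_ISC := by
  classical
  intro V ρ σ 𝔹 m lv 𝔸 i h R hI hC Q g hg
  induction Q using Finset.induction_on with
  | empty =>
    intro he
    exact exu_mono he fun x _ q hq => absurd hq (Finset.notMem_empty q)
  | insert q0 Q' hq ih =>
    intro he
    refine ih ?_
    have h1 : ExU 𝔹 lv i R g (Out lv h q0 ∩ Off lv h Q') := by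
      refine exu_mono he ?_
      rintro x ⟨hx1, hx2⟩ q hqm
      rcases Finset.mem_insert.1 hqm with h2 | h2
      · rw [h2]
        exact hx1
      · exact hx2 q h2
    have h2 := hI q0 Q' g hg h1
    have h3 := hC (max 1 h) q0 ∅ Q' g (le_max_right _ _) (le_max_left _ _) hg
      (exu_mono h2 Set.inter_subset_left) h1
    refine exu_mono h3 ?_
    intro x hx
    rcases le_or_gt h (lv x q0) with h4 | h4
    · exact Or.inl ⟨h4, fun q hq => absurd hq (Finset.notMem_empty q)⟩
    · exact Or.inr ⟨h4, hx⟩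

end Pool.Agent.H34.CL
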