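import Pool.Agent.H31.E21.RealExp
import Pool.Agent.H31.E21.Orth

/-!
# Mean values and level sets at real exponents below the critical one (helper34)

`Ω` is a finite set in `(Z/R)^k` which is stable under the translations by the multiples of
`R / p^(k B)`. The mean value of `|∑_{m ≤ L} e(x(m) / R)|^{2 s}` over `Ω` is `≤ C L^s` for real
`s < k (k + 1) / 2`, without loss, and the level sets are bounded accordingly.
-/

set_option autoImplicit false

open Finset Polynomial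

namespace Pool.Agent.H34.CL

open Pool.Agent.H22.VM Pool.Agent.H31.E21

/-- the exponential sum -/
noncomputable def sm {k R : ℕ} [NeZero R] (L : ℕ) (x : Fin k → ZMod R) : ℂ :=
  ∑ m ∈ Icc 1 L, ch (pt x (m : ℤ))

/-- `Ω` is stable under the translations by the multiples of `c` -/
def Stab {k R : ℕ} (c : ℕ) (Ω : Finset (Fin k → ZMod R)) : Prop :=
  ∀ (v : Fin k → ℤ), ∀ x ∈ Ω, (fun j => x j + (c : ZMod R) * (v j : ZMod R)) ∈ Ω

theorem ch_scale {R q c : ℕ} [NeZero R] (hq : 0 < q) (hR : R = c * q) (n : ℤ) :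
    ch ((c : ZMod R) * (n : ZMod R)) = e ((n : ℝ) / (q : ℝ)) := by
  have h1 : ((c : ZMod R) * (n : ZMod R)) = (((c : ℤ) * n : ℤ) : ZMod R) := by push_cast; ring
  have hR0 : (R : ℂ) ≠ 0 := by exact_mod_cast NeZero.ne R
  have hq0 : (q : ℂ) ≠ 0 := by exact_mod_cast hq.ne'
  have hc0 : (c : ℂ) ≠ 0 := by
    intro h
    apply hR0
    have : (R : ℂ) = (c : ℂ) * (q : ℂ) := by rw [hR]; push_cast; ring
    rw [this, h, zero_mul]
  unfold ch
  rw [h1, ZMod.stdAddChar_coe]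
  unfold e
  congr 1
  have hR' : (R : ℂ) = (c : ℂ) * (q : ℂ) := by rw [hR]; push_cast; ring
  rw [hR']
  push_cast
  field_simp

theorem eval_eq_sum {k : ℕ} (P : ℤ[X]) (hP : P.natDegree ≤ k) (m : ℤ) :
    P.eval m = P.coeff 0 + ∑ j : Fin k, P.coeff (j.val + 1) * m ^ (j.val + 1) := by
  rw [Polynomial.eval_eq_sum_range' (Nat.lt_succ_of_le hP), Finset.sum_range_succ',
    Finset.sum_range (fun i => P.coeff (i + 1) * m ^ (i + 1))]
  ring

theorem inv_Om (k : ℕ) {R q c : ℕ} [NeZero R] (hq : 0 < q) (hR : R = c * q)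
    (Ω : Finset (Fin k → ZMod R)) (hΩ : Stab c Ω) (S : Finset ℕ) :
    Inv k q (fun _ : Ω => (1 : ℝ)) S (fun m : ℕ => (m : ℤ))
      (fun m (x : Ω) => ch (pt x.1 (m : ℤ))) := by
  intro P hP
  have hmem : ∀ (v : Fin k → ℤ) (x : Ω),
      (fun j => x.1 j + (c : ZMod R) * (v j : ZMod R)) ∈ Ω := fun v x => hΩ v x.1 x.2
  have hadd : ∀ (v : Fin k → ℤ) (x : Ω), (fun j => (fun j => x.1 j + (c : ZMod R) *
      (v j : ZMod R)) j + (c : ZMod R) * (((-v) j : ℤ) : ZMod R)) = x.1 := by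
    intro v x
    funext j
    simp only [Pi.neg_apply]
    push_cast
    ring
  refine ⟨⟨fun x => ⟨_, hmem (fun j => P.coeff (j.val + 1)) x⟩,
    fun x => ⟨_, hmem (-(fun j => P.coeff (j.val + 1))) x⟩, ?_, ?_⟩, fun _ => rfl,
    fun _ => e (-((P.coeff 0 : ℝ) / (q : ℝ))), ?_, ?_⟩
  · intro x
    apply Subtype.ext
    exact hadd _ x
  · intro x
    apply Subtype.ext
    have h := hadd (-(fun j => P.coeff (j.val + 1))) x
    rw [neg_neg] at h
    exact h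
  · intro _
    unfold e
    rw [Complex.norm_exp]
    simp
  · intro m _ x
    have h1 : pt (fun j => x.1 j + (c : ZMod R) * ((P.coeff (j.val + 1) : ℤ) : ZMod R)) (m : ℤ) =
        (c : ZMod R) * ((P.eval (m : ℤ) - P.coeff 0 : ℤ) : ZMod R) + pt x.1 (m : ℤ) := by
      rw [eval_eq_sum P hP]
      unfold pt
      push_cast
      rw [add_sub_cancel_left, mul_sum, ← sum_add_distrib]
      refine sum_congr rfl fun j _ => ?_
      ring
    have h2 : e (((P.eval (m : ℤ) - P.coeff 0 : ℤ) : ℝ) / (q : ℝ)) =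
        e (-((P.coeff 0 : ℝ) / (q : ℝ))) * e (((P.eval (m : ℤ) : ℤ) : ℝ) / (q : ℝ)) := by
      rw [← t_EX.2.1]
      congr 1
      push_cast
      ring
    change ch (pt (fun j => x.1 j + (c : ZMod R) * ((P.coeff (j.val + 1) : ℤ) : ZMod R))
      (m : ℤ)) = _
    rw [h1, ch_add, ch_scale hq hR, h2]

/-- mean values at real exponents below the critical exponent -/
theorem mean_value (k p : ℕ) (s : ℝ) (hk : 3 ≤ k) (hp : p.Prime) (hkp : k < p) (h32 : 32 < p)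
    (hs₁ : KK k - 1 ≤ s) (hs₂ : s < KK k) : ∃ C : ℝ, 0 ≤ C ∧
    ∀ (R B L c : ℕ) [NeZero R] (Ω : Finset (Fin k → ZMod R)), R = c * p ^ (k * B) → L < p ^ B →
      Stab c Ω → ∑ x ∈ Ω, ‖sm L x‖ ^ (2 * s) ≤ C * ((p : ℝ) ^ B) ^ s * (Ω.card : ℝ) := by
  obtain ⟨C, hC, hU⟩ := uni_real k p s hk hp hkp h32 hs₁ hs₂
  refine ⟨C, hC, ?_⟩
  intro R B L c _ Ω hR hL hΩ
  have h := hU B ℕ Ω (fun _ => (1 : ℝ)) (Icc 1 L) (fun m : ℕ => (m : ℤ))
    (fun m (x : Ω) => ch (pt x.1 (m : ℤ))) (fun _ => zero_le_one)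
    (inv_Om k (pow_pos hp.pos _) hR Ω hΩ _) (fun i _ x => (ch_norm _).le)
    (fun a _ b _ hab => by
      have h1 : (a : ℤ) = (b : ℤ) := hab
      exact_mod_cast h1) (fun i hi => by
      rw [mem_Icc] at hi
      refine ⟨by positivity, ?_⟩
      exact_mod_cast lt_of_le_of_lt hi.2 hL)
  unfold mo bs at h
  simp only [one_mul, sum_const, mul_one, card_univ, nsmul_eq_mul,
    Fintype.card_coe] at h
  rw [← Finset.sum_coe_sort Ω (fun x => ‖sm L x‖ ^ (2 * s))]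
  exact h

/-- level sets -/
theorem level_set (k p : ℕ) (s : ℝ) (hk : 3 ≤ k) (hp : p.Prime) (hkp : k < p) (h32 : 32 < p)
    (hs₁ : KK k - 1 ≤ s) (hs₂ : s < KK k) : ∃ C : ℝ, 0 ≤ C ∧
    ∀ (R B L c : ℕ) (t : ℝ) [NeZero R] (Ω : Finset (Fin k → ZMod R)), R = c * p ^ (k * B) →
      0 < L → L < p ^ B → p ^ B ≤ p * L → Stab c Ω → 0 < t →
      ((Ω.filter fun x => t * (L : ℝ) ^ 2 ≤ ‖sm L x‖ ^ 2).card : ℝ) ≤
        C * (t * L) ^ (-s) * (Ω.card : ℝ) := by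
  obtain ⟨C, hC, hM⟩ := mean_value k p s hk hp hkp h32 hs₁ hs₂
  have hs0 : 0 < s := by
    have : (6 : ℝ) ≤ KK k := Pool.Agent.H62.VM.KK_three hk
    linarith
  refine ⟨C * (p : ℝ) ^ s, by positivity, ?_⟩
  intro R B L c t _ Ω hR hL hLB hBL hΩ ht
  have h := hM R B L c Ω hR hLB hΩ
  have hL0 : (0 : ℝ) < L := by exact_mod_cast hL
  have hp0 : (0 : ℝ) < p := by exact_mod_cast hp.pos
  set A := Ω.filter fun x => t * (L : ℝ) ^ 2 ≤ ‖sm L x‖ ^ 2 with hA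
  have h1 : (A.card : ℝ) * (t * (L : ℝ) ^ 2) ^ s ≤ ∑ x ∈ Ω, ‖sm L x‖ ^ (2 * s) := by
    calc (A.card : ℝ) * (t * (L : ℝ) ^ 2) ^ s = ∑ x ∈ A, (t * (L : ℝ) ^ 2) ^ s := by
          rw [sum_const, nsmul_eq_mul]
      _ ≤ ∑ x ∈ A, ‖sm L x‖ ^ (2 * s) := by
          refine sum_le_sum fun x hx => ?_
          have h2 := (mem_filter.1 hx).2
          have h3 : ‖sm L x‖ ^ (2 * s) = (‖sm L x‖ ^ 2) ^ s := by
            rw [← Real.rpow_natCast, ← Real.rpow_mul (norm_nonneg _)]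
            norm_num
          rw [h3]
          exact Real.rpow_le_rpow (by positivity) h2 hs0.le
      _ ≤ ∑ x ∈ Ω, ‖sm L x‖ ^ (2 * s) :=
          sum_le_sum_of_subset_of_nonneg (filter_subset _ _) fun x _ _ => by positivity
  have h4 : ((p : ℝ) ^ B) ^ s ≤ (p : ℝ) ^ s * (L : ℝ) ^ s := by
    rw [← Real.mul_rpow hp0.le hL0.le]
    refine Real.rpow_le_rpow (by positivity) ?_ hs0.le
    exact_mod_cast hBL
  have h5 : (t * (L : ℝ) ^ 2) ^ s = (t * L) ^ s * (L : ℝ) ^ s := by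
    rw [← Real.mul_rpow (by positivity) hL0.le]
    congr 1
    ring
  have h6 : (A.card : ℝ) * ((t * L) ^ s * (L : ℝ) ^ s) ≤
      C * ((p : ℝ) ^ s * (L : ℝ) ^ s) * (Ω.card : ℝ) := by
    rw [← h5]
    refine h1.trans (h.trans ?_)
    exact mul_le_mul_of_nonneg_right (mul_le_mul_of_nonneg_left h4 hC) (Nat.cast_nonneg _)
  have h7 : 0 < (L : ℝ) ^ s := Real.rpow_pos_of_pos hL0 _
  have h8 : 0 < (t * L) ^ s := Real.rpow_pos_of_pos (by positivity) _
  rw [Real.rpow_neg (by positivity)]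
  have h9 : (A.card : ℝ) * (t * L) ^ s ≤ C * (p : ℝ) ^ s * (Ω.card : ℝ) := by
    have h10 : ((A.card : ℝ) * (t * L) ^ s) * (L : ℝ) ^ s ≤
        (C * (p : ℝ) ^ s * (Ω.card : ℝ)) * (L : ℝ) ^ s := by
      calc _ = (A.card : ℝ) * ((t * L) ^ s * (L : ℝ) ^ s) := by ring
        _ ≤ _ := h6
        _ = _ := by ring
    exact le_of_mul_le_mul_right h10 h7
  calc (A.card : ℝ) = (A.card : ℝ) * (t * L) ^ s * ((t * L) ^ s)⁻¹ := by
        field_simp
    _ ≤ C * (p : ℝ) ^ s * (Ω.card : ℝ) * ((t * L) ^ s)⁻¹ :=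
        mul_le_mul_of_nonneg_right h9 (by positivity)
    _ = _ := by ring

end Pool.Agent.H34.CL
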